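import Pool.Agent.helper44.AX.SpecA

/-!
Row LFT of project AX: lifting from the residual representation.
-/

set_option autoImplicit false

namespace Pool.Agent.AX

open Matrix Pool.Agent.HZ

section norms
variable {F : Type*} [NormedField F] [IsUltrametricDist F]

lemma LFT_add {x y : F} {r : ℝ} (hx : ‖x‖ ≤ r) (hy : ‖y‖ ≤ r) : ‖x + y‖ ≤ r :=
  (IsUltrametricDist.norm_add_le_max x y).trans (max_le hx hy)

lemma LFT_add' {x y : F} {r : ℝ} (hx : ‖x‖ < r) (hy : ‖y‖ < r) : ‖x + y‖ < r :=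
  (IsUltrametricDist.norm_add_le_max x y).trans_lt (max_lt hx hy)

lemma LFT_sub {x y : F} {r : ℝ} (hx : ‖x‖ ≤ r) (hy : ‖y‖ ≤ r) : ‖x - y‖ ≤ r := by
  rw [sub_eq_add_neg]
  exact LFT_add hx (by rwa [norm_neg])

lemma LFT_mul {A B : Matrix (Fin 2) (Fin 2) F} {r s : ℝ} (hr : 0 ≤ r)
    (hA : ∀ a b, ‖A a b‖ ≤ r) (hB : ∀ a b, ‖B a b‖ ≤ s) (a b : Fin 2) : ‖(A * B) a b‖ ≤ r * s := by
  rw [Matrix.mul_apply, Fin.sum_univ_two]
  apply LFT_add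
  · rw [norm_mul]
    exact mul_le_mul (hA _ _) (hB _ _) (norm_nonneg _) hr
  · rw [norm_mul]
    exact mul_le_mul (hA _ _) (hB _ _) (norm_nonneg _) hr

lemma LFT_mul' {A B : Matrix (Fin 2) (Fin 2) F} {r : ℝ}
    (hA : ∀ a b, ‖A a b‖ < r) (hB : ∀ a b, ‖B a b‖ ≤ 1) (a b : Fin 2) : ‖(A * B) a b‖ < r := by
  have h1 : ∀ a b c d, ‖A a b * B c d‖ < r := by
    intro a b c d
    rw [norm_mul]
    calc ‖A a b‖ * ‖B c d‖ ≤ ‖A a b‖ * 1 := mul_le_mul_of_nonneg_left (hB _ _) (norm_nonneg _)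
      _ = ‖A a b‖ := mul_one _
      _ < r := hA _ _
  rw [Matrix.mul_apply, Fin.sum_univ_two]
  exact LFT_add' (h1 _ _ _ _) (h1 _ _ _ _)

lemma LFT_one (a b : Fin 2) : ‖(1 : Matrix (Fin 2) (Fin 2) F) a b‖ ≤ 1 := by
  rw [Matrix.one_apply]
  split_ifs <;> simp

end norms

section red
variable {F κ : Type*} [NormedField F] [Field κ] {red : F → κ}

lemma LFT_red_zero (h : IsRed red) : red 0 = 0 := (h.zero_iff 0 (by simp)).mpr (by simp)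

lemma LFT_map_add (h : IsRed red) {A B : Matrix (Fin 2) (Fin 2) F} (hA : ∀ a b, ‖A a b‖ ≤ 1)
    (hB : ∀ a b, ‖B a b‖ ≤ 1) : (A + B).map red = A.map red + B.map red := by
  ext a b
  simp only [Matrix.map_apply, Matrix.add_apply]
  exact h.add _ _ (hA a b) (hB a b)

lemma LFT_map_small (h : IsRed red) {A : Matrix (Fin 2) (Fin 2) F} (hA : ∀ a b, ‖A a b‖ < 1) :
    A.map red = 0 := by
  ext a b
  simp only [Matrix.map_apply, Matrix.zero_apply]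
  exact (h.zero_iff _ (hA a b).le).mpr (hA a b)

lemma LFT_map_mul (h : IsRed red) {A B : Matrix (Fin 2) (Fin 2) F} (hA : ∀ a b, ‖A a b‖ ≤ 1)
    (hB : ∀ a b, ‖B a b‖ ≤ 1) : (A * B).map red = A.map red * B.map red := by
  have h1 : ∀ a b c d, ‖A a b * B c d‖ ≤ 1 := by
    intro a b c d
    rw [norm_mul]
    exact mul_le_one₀ (hA _ _) (norm_nonneg _) (hB _ _)
  ext a b
  simp only [Matrix.map_apply, Matrix.mul_apply, Fin.sum_univ_two]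
  rw [h.add _ _ (h1 _ _ _ _) (h1 _ _ _ _), h.mul _ _ (hA _ _) (hB _ _), h.mul _ _ (hA _ _) (hB _ _)]

end red

/-- The element `x` has the leading term `X`. -/
def LFT_LT {Γ F κ : Type*} [Group Γ] [NormedField F] [Field κ]
    (ρ : Γ →* Matrix (Fin 2) (Fin 2) F) (red : F → κ) (d : ℝ) (π : F) (x : Γ)
    (X : Matrix (Fin 2) (Fin 2) κ) : Prop :=
  X.trace = 0 ∧ ∃ (c : F) (Y : Matrix (Fin 2) (Fin 2) F) (s : κ), ‖c‖ = 1 ∧ ρ x = c • (1 + Y) ∧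
    (∀ a b, ‖Y a b‖ ≤ d) ∧ X = (π⁻¹ • Y).map red + s • (1 : Matrix (Fin 2) (Fin 2) κ)

section lt
variable {Γ F κ : Type*} [Group Γ] [NormedField F] [IsUltrametricDist F] [Field κ]
  {ρ : Γ →* Matrix (Fin 2) (Fin 2) F} {red : F → κ} {d : ℝ} {π : F}

lemma LFT_pi {Y : Matrix (Fin 2) (Fin 2) F} {r : ℝ} (hd0 : 0 < d) (hπ : ‖π‖ = d)
    (hY : ∀ a b, ‖Y a b‖ ≤ d * r) (a b : Fin 2) : ‖(π⁻¹ • Y) a b‖ ≤ r := by
  rw [Matrix.smul_apply, smul_eq_mul, norm_mul, norm_inv, hπ]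
  calc d⁻¹ * ‖Y a b‖ ≤ d⁻¹ * (d * r) := mul_le_mul_of_nonneg_left (hY a b) (inv_nonneg.mpr hd0.le)
    _ = r := by field_simp

lemma LFT_lt_one (h : IsRed red) (hd0 : 0 < d) : LFT_LT ρ red d π 1 0 := by
  refine ⟨Matrix.trace_zero _ _, 1, 0, 0, norm_one, by simp, fun a b => by simpa using hd0.le, ?_⟩
  rw [smul_zero, zero_smul, add_zero]
  ext a b
  simp [LFT_red_zero h]

lemma LFT_lt_mul (h : IsRed red) (hd0 : 0 < d) (hd1 : d < 1) (hπ : ‖π‖ = d) {x y : Γ}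
    {X X' : Matrix (Fin 2) (Fin 2) κ} (hx : LFT_LT ρ red d π x X) (hy : LFT_LT ρ red d π y X') :
    LFT_LT ρ red d π (x * y) (X + X') := by
  obtain ⟨t, c, Y, s, hc, hρ, hY, hX⟩ := hx
  obtain ⟨t', c', Y', s', hc', hρ', hY', hX'⟩ := hy
  have hYY : ∀ a b, ‖(Y * Y') a b‖ ≤ d * d := LFT_mul hd0.le hY hY'
  have hYYd : ∀ a b, ‖(Y * Y') a b‖ ≤ d := fun a b => (hYY a b).trans (by nlinarith)
  refine ⟨by rw [Matrix.trace_add, t, t', add_zero], c * c', Y + Y' + Y * Y', s + s', by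
    rw [norm_mul, hc, hc', mul_one], ?_, fun a b => LFT_add (LFT_add (hY a b) (hY' a b)) (hYYd a b),
    ?_⟩
  · rw [map_mul, hρ, hρ', Matrix.smul_mul, Matrix.mul_smul, smul_smul]
    congr 1
    noncomm_ring
  · have e1 : ∀ a b, ‖(π⁻¹ • Y) a b‖ ≤ 1 := LFT_pi hd0 hπ (by simpa using hY)
    have e2 : ∀ a b, ‖(π⁻¹ • Y') a b‖ ≤ 1 := LFT_pi hd0 hπ (by simpa using hY')
    have e3 : ∀ a b, ‖(π⁻¹ • (Y * Y')) a b‖ < 1 := fun a b =>
      (LFT_pi hd0 hπ hYY a b).trans_lt hd1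
    have e4 : ∀ a b, ‖(π⁻¹ • Y + π⁻¹ • Y') a b‖ ≤ 1 := fun a b => LFT_add (e1 a b) (e2 a b)
    rw [smul_add, smul_add, LFT_map_add h e4 (fun a b => (e3 a b).le), LFT_map_add h e1 e2,
      LFT_map_small h e3, hX, hX', add_smul]
    abel

lemma LFT_inv_aux (hd1 : d < 1) (hρ1 : ∀ g a b, ‖ρ g a b‖ ≤ 1) {x : Γ}
    {c : F} {Y : Matrix (Fin 2) (Fin 2) F} (hc : ‖c‖ = 1) (hd0 : 0 < d)
    (hρ : ρ x = c • (1 + Y)) (hY : ∀ a b, ‖Y a b‖ ≤ d) :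
    ∃ Y' : Matrix (Fin 2) (Fin 2) F, ρ x⁻¹ = c⁻¹ • (1 + Y') ∧ (1 + Y) * (1 + Y') = 1 ∧
      (∀ a b, ‖Y' a b‖ ≤ d) := by
  have hc0 : c ≠ 0 := by
    intro h0
    rw [h0, norm_zero] at hc
    exact zero_ne_one hc
  have h1 : ρ x⁻¹ = c⁻¹ • (1 + (c • ρ x⁻¹ - 1)) := by
    rw [add_sub_cancel, smul_smul, inv_mul_cancel₀ hc0, one_smul]
  have h2 : (1 + Y) * (1 + (c • ρ x⁻¹ - 1)) = 1 := by
    rw [add_sub_cancel, Matrix.mul_smul, ← Matrix.smul_mul, ← hρ, hom_mul_inv']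
  refine ⟨c • ρ x⁻¹ - 1, h1, h2, ?_⟩
  have h3 : ∀ a b, ‖(c • ρ x⁻¹ - 1) a b‖ ≤ 1 := by
    intro a b
    rw [Matrix.sub_apply]
    apply LFT_sub
    · rw [Matrix.smul_apply, smul_eq_mul, norm_mul, hc, one_mul]
      exact hρ1 _ _ _
    · exact LFT_one a b
  have h4 : c • ρ x⁻¹ - 1 = -(Y + Y * (c • ρ x⁻¹ - 1)) := by
    generalize c • ρ x⁻¹ - 1 = U at h2
    have h5 : (1 + Y) * (1 + U) = 1 + (U + (Y + Y * U)) := by noncomm_ring
    rw [h2] at h5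
    have h7 : 1 + (U + (Y + Y * U)) = 1 + 0 := by
      rw [add_zero]
      exact h5.symm
    exact eq_neg_of_add_eq_zero_left (add_left_cancel h7)
  intro a b
  rw [h4, Matrix.neg_apply, norm_neg]
  apply LFT_add (hY a b)
  have := LFT_mul hd0.le hY h3 a b
  rwa [mul_one] at this

lemma LFT_lt_inv (h : IsRed red) (hd0 : 0 < d) (hd1 : d < 1) (hπ : ‖π‖ = d)
    (hρ1 : ∀ g a b, ‖ρ g a b‖ ≤ 1) {x : Γ}
    {X : Matrix (Fin 2) (Fin 2) κ} (hx : LFT_LT ρ red d π x X) :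
    LFT_LT ρ red d π x⁻¹ (-X) := by
  obtain ⟨t, c, Y, s, hc, hρ, hY, hX⟩ := hx
  obtain ⟨Y', h1, h2, h3⟩ := LFT_inv_aux hd1 hρ1 hc hd0 hρ hY
  refine ⟨by rw [Matrix.trace_neg, t, neg_zero], c⁻¹, Y', -s, by rw [norm_inv, hc, inv_one], h1, h3,
    ?_⟩
  have hYY : ∀ a b, ‖(Y * Y') a b‖ ≤ d * d := LFT_mul hd0.le hY h3
  have e1 : ∀ a b, ‖(π⁻¹ • Y) a b‖ ≤ 1 := LFT_pi hd0 hπ (by simpa using hY)
  have e2 : ∀ a b, ‖(π⁻¹ • Y') a b‖ ≤ 1 := LFT_pi hd0 hπ (by simpa using h3)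
  have e3 : ∀ a b, ‖(π⁻¹ • (Y * Y')) a b‖ < 1 := fun a b =>
    (LFT_pi hd0 hπ hYY a b).trans_lt hd1
  have e4 : ∀ a b, ‖(π⁻¹ • Y + π⁻¹ • Y') a b‖ ≤ 1 := fun a b => LFT_add (e1 a b) (e2 a b)
  have h4 : Y + Y' + Y * Y' = 0 := by
    have h5 : (1 + Y) * (1 + Y') = 1 + (Y + Y' + Y * Y') := by noncomm_ring
    rw [h2] at h5
    have h6 : (1 : Matrix (Fin 2) (Fin 2) F) + (Y + Y' + Y * Y') = 1 + 0 := by
      rw [add_zero]
      exact h5.symm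
    exact add_left_cancel h6
  have h5 : (π⁻¹ • (Y + Y' + Y * Y')).map red = 0 := by
    rw [h4, smul_zero]
    ext a b
    simp [LFT_red_zero h]
  rw [smul_add, smul_add, LFT_map_add h e4 (fun a b => (e3 a b).le), LFT_map_add h e1 e2,
      LFT_map_small h e3, add_zero] at h5
  rw [hX, eq_neg_of_add_eq_zero_right h5, neg_smul]
  abel

lemma LFT_lt_conj (h : IsRed red) (hd0 : 0 < d) (hπ : ‖π‖ = d)
    (hρ1 : ∀ g a b, ‖ρ g a b‖ ≤ 1) {S : Γ →* Matrix (Fin 2) (Fin 2) κ}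
    (hS : ∀ g, S g = (ρ g).map red) {x : Γ} (y : Γ)
    {X : Matrix (Fin 2) (Fin 2) κ} (hx : LFT_LT ρ red d π x X) :
    LFT_LT ρ red d π (y * x * y⁻¹) (S y * X * S y⁻¹) := by
  obtain ⟨t, c, Y, s, hc, hρ, hY, hX⟩ := hx
  have e0 : ∀ a b, ‖(ρ y * Y) a b‖ ≤ d := by
    intro a b
    have := LFT_mul zero_le_one (hρ1 y) hY a b
    rwa [one_mul] at this
  have e1 : ∀ a b, ‖(ρ y * Y * ρ y⁻¹) a b‖ ≤ d := by
    intro a b
    have := LFT_mul hd0.le e0 (hρ1 y⁻¹) a b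
    rwa [mul_one] at this
  refine ⟨?_, c, ρ y * Y * ρ y⁻¹, s, hc, ?_, e1, ?_⟩
  · rw [Matrix.trace_mul_comm, ← Matrix.mul_assoc, hom_inv_mul', Matrix.one_mul, t]
  · rw [map_mul, map_mul, hρ, Matrix.mul_smul, Matrix.smul_mul]
    congr 1
    rw [Matrix.mul_add, Matrix.mul_one, Matrix.add_mul, hom_mul_inv']
  · have e2 : ∀ a b, ‖(π⁻¹ • Y) a b‖ ≤ 1 := LFT_pi hd0 hπ (by simpa using hY)
    have e3 : ∀ a b, ‖(ρ y * (π⁻¹ • Y)) a b‖ ≤ 1 := by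
      intro a b
      have := LFT_mul zero_le_one (hρ1 y) e2 a b
      rwa [one_mul] at this
    have e4 : π⁻¹ • (ρ y * Y * ρ y⁻¹) = ρ y * (π⁻¹ • Y) * ρ y⁻¹ := by
      rw [Matrix.mul_smul, Matrix.smul_mul]
    rw [e4, LFT_map_mul h e3 (hρ1 _), LFT_map_mul h (hρ1 _) e2, ← hS, ← hS, hX, Matrix.mul_add,
      Matrix.add_mul, Matrix.mul_smul, Matrix.mul_one, Matrix.smul_mul, hom_mul_inv']

end lt

lemma LFT_exists_min {Γ F : Type*} [Group Γ] [TopologicalSpace Γ] [IsTopologicalGroup Γ]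
    [CompactSpace Γ] [NormedField F] [ProperSpace F] (ρ : Γ →* Matrix (Fin 2) (Fin 2) F)
    (hρ : Continuous ρ) (Z : Subgroup Γ) (hZ : IsClosed (Z : Set Γ)) (g : Γ) :
    ∃ z ∈ Z, ∃ c : F, ‖c‖ ≤ 1 ∧ ∃ d : ℝ, (∀ a b, ‖(ρ (z⁻¹ * g) - c • 1) a b‖ ≤ d) ∧
      (∃ a b, ‖(ρ (z⁻¹ * g) - c • 1) a b‖ = d) ∧
      ∀ z' ∈ Z, ∀ c' : F, ‖c'‖ ≤ 1 → ∃ a b, d ≤ ‖(ρ (z'⁻¹ * g) - c' • 1) a b‖ := by
  set f : Γ × F → ℝ := fun q => Finset.univ.sup' Finset.univ_nonempty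
    (fun ab : Fin 2 × Fin 2 => ‖(ρ (q.1⁻¹ * g) - q.2 • 1) ab.1 ab.2‖) with hf
  have hcont : Continuous f := by
    apply Continuous.finset_sup'_apply
    intro ab _
    apply Continuous.norm
    apply Continuous.matrix_elem
    apply Continuous.sub
    · exact hρ.comp ((continuous_fst.inv).mul continuous_const)
    · exact continuous_snd.smul continuous_const
  have hcpt : IsCompact ((Z : Set Γ) ×ˢ Metric.closedBall (0 : F) 1) :=
    hZ.isCompact.prod (isCompact_closedBall 0 1)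
  obtain ⟨⟨z, c⟩, hzc, hmin⟩ := hcpt.exists_isMinOn
    ⟨(1, 0), ⟨Z.one_mem, by simp⟩⟩ hcont.continuousOn
  refine ⟨z, hzc.1, c, by simpa using hzc.2, f (z, c), ?_, ?_, ?_⟩
  · intro a b
    exact Finset.le_sup' (fun ab : Fin 2 × Fin 2 => ‖(ρ (z⁻¹ * g) - c • 1) ab.1 ab.2‖)
      (Finset.mem_univ (a, b))
  · obtain ⟨ab, _, h⟩ := Finset.exists_mem_eq_sup' Finset.univ_nonempty
      (fun ab : Fin 2 × Fin 2 => ‖(ρ (z⁻¹ * g) - c • 1) ab.1 ab.2‖)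
    exact ⟨ab.1, ab.2, h.symm⟩
  · intro z' hz' c' hc'
    obtain ⟨ab, _, h⟩ := Finset.exists_mem_eq_sup' Finset.univ_nonempty
      (fun ab : Fin 2 × Fin 2 => ‖(ρ (z'⁻¹ * g) - c' • 1) ab.1 ab.2‖)
    refine ⟨ab.1, ab.2, ?_⟩
    have h1 : f (z, c) ≤ f (z', c') := hmin ⟨hz', by simpa using hc'⟩
    rw [← h]
    exact h1

/-- The subgroup of the leading terms of the elements of a subgroup. -/
def LFT_sub_lt {Γ F κ : Type*} [Group Γ] [NormedField F] [IsUltrametricDist F] [Field κ]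
    (ρ : Γ →* Matrix (Fin 2) (Fin 2) F) {red : F → κ} {d : ℝ} {π : F}
    (h : IsRed red) (hd0 : 0 < d) (hd1 : d < 1) (hπ : ‖π‖ = d)
    (hρ1 : ∀ g a b, ‖ρ g a b‖ ≤ 1) (Z : Subgroup Γ) : AddSubgroup (Matrix (Fin 2) (Fin 2) κ) where
  carrier := {X | ∃ x ∈ Z, LFT_LT ρ red d π x X}
  zero_mem' := ⟨1, Z.one_mem, LFT_lt_one h hd0⟩
  add_mem' := by
    rintro X X' ⟨x, hx, hX⟩ ⟨y, hy, hY⟩
    exact ⟨x * y, Z.mul_mem hx hy, LFT_lt_mul h hd0 hd1 hπ hX hY⟩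
  neg_mem' := by
    rintro X ⟨x, hx, hX⟩
    exact ⟨x⁻¹, Z.inv_mem hx, LFT_lt_inv h hd0 hd1 hπ hρ1 hX⟩

/-- Conjugation as a homomorphism of additive groups. -/
def LFT_cj {κ : Type*} [Field κ] (γ γ' : Matrix (Fin 2) (Fin 2) κ) :
    Matrix (Fin 2) (Fin 2) κ →+ Matrix (Fin 2) (Fin 2) κ where
  toFun X := γ * X * γ'
  map_zero' := by simp
  map_add' X Y := by rw [Matrix.mul_add, Matrix.add_mul]

/-- The commutator with `z`, with `S z` a multiple of a conjugate of `m`. -/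
lemma LFT_comm {Γ F κ : Type*} [Group Γ] [NormedField F] [IsUltrametricDist F] [Field κ]
    (ρ : Γ →* Matrix (Fin 2) (Fin 2) F) {red : F → κ} {d : ℝ} {π : F}
    (h : IsRed red) (hd0 : 0 < d) (hd1 : d < 1) (hπ : ‖π‖ = d)
    (hρ1 : ∀ g a b, ‖ρ g a b‖ ≤ 1) {S : Γ →* Matrix (Fin 2) (Fin 2) κ}
    (hS : ∀ g, S g = (ρ g).map red) (Z : Subgroup Γ) (hZ : Z.Normal)
    {γ γ' m m' : Matrix (Fin 2) (Fin 2) κ} (h1 : γ * γ' = 1) (h2 : γ' * γ = 1) (hm : m * m' = 1)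
    (z : Γ) (hz : z ∈ Z) (c : κ) (hc : S z = c • (γ * m * γ')) (X : Matrix (Fin 2) (Fin 2) κ)
    (hX : ∃ x, LFT_LT ρ red d π x (γ * X * γ')) :
    ∃ x ∈ Z, LFT_LT ρ red d π x (γ * (m * X * m' - X) * γ') := by
  obtain ⟨x, hx⟩ := hX
  have hc0 : c ≠ 0 := by
    intro h0
    have h3 := hom_mul_inv' S z
    rw [hc, h0, zero_smul, Matrix.zero_mul] at h3
    have h4 := congrFun (congrFun h3 0) 0
    simp at h4
  have hinv : S z⁻¹ = c⁻¹ • (γ * m' * γ') := by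
    have h3 : S z * (c⁻¹ • (γ * m' * γ')) = 1 := by
      rw [hc, Matrix.smul_mul, Matrix.mul_smul, smul_smul, mul_inv_cancel₀ hc0, one_smul]
      calc γ * m * γ' * (γ * m' * γ') = γ * (m * (γ' * γ) * m') * γ' := by
            simp only [Matrix.mul_assoc]
        _ = 1 := by rw [h2, Matrix.mul_one, hm, Matrix.mul_one, h1]
    calc S z⁻¹ = S z⁻¹ * (S z * (c⁻¹ • (γ * m' * γ'))) := by rw [h3, Matrix.mul_one]
      _ = c⁻¹ • (γ * m' * γ') := by rw [← Matrix.mul_assoc, hom_inv_mul', Matrix.one_mul]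
  refine ⟨z * x * z⁻¹ * x⁻¹, ?_, ?_⟩
  · have h3 : z * x * z⁻¹ * x⁻¹ = z * (x * z⁻¹ * x⁻¹) := by group
    rw [h3]
    exact Z.mul_mem hz (hZ.conj_mem _ (Z.inv_mem hz) _)
  · have h3 := LFT_lt_mul h hd0 hd1 hπ (LFT_lt_conj h hd0 hπ hρ1 hS z hx)
      (LFT_lt_inv h hd0 hd1 hπ hρ1 hx)
    have h4 : S z * (γ * X * γ') * S z⁻¹ + -(γ * X * γ') = γ * (m * X * m' - X) * γ' := by
      rw [hc, hinv, Matrix.mul_smul, Matrix.smul_mul, Matrix.smul_mul, smul_smul,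
        inv_mul_cancel₀ hc0, one_smul, Matrix.mul_sub, Matrix.sub_mul, sub_eq_add_neg]
      congr 1
      calc γ * m * γ' * (γ * X * γ') * (γ * m' * γ') =
          γ * (m * (γ' * γ) * X * (γ' * γ) * m') * γ' := by simp only [Matrix.mul_assoc]
        _ = γ * (m * X * m') * γ' := by rw [h2, Matrix.mul_one, Matrix.mul_one]
    rw [h4] at h3
    exact h3

theorem LFT (hLSL : LSL_stmt) : LFT_stmt := by
  intro p hp hp2 Γ _ _ _ _ F κ _ _ _ _ _ red hred ρ S hρc hρ1 hS Z hZn hZc hPSL g hg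
  have hultra : IsUltrametricDist F := by
    apply IsUltrametricDist.isUltrametricDist_of_forall_norm_natCast_le_one
    intro n
    have h1 : (n : F) = algebraMap ℚ_[p] F (n : ℚ_[p]) := by rw [map_natCast]
    rw [h1, norm_algebraMap']
    exact Padic.norm_int_le_one (p := p) (n : ℤ)
  have hproper : ProperSpace F := FiniteDimensional.proper ℚ_[p] F
  obtain ⟨z, hz, c, hc1, d, hd, ⟨a0, b0, hab⟩, hmin⟩ := LFT_exists_min ρ hρc Z hZc g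
  rw [mem_sup_adKer]
  have hd00 : 0 ≤ d := hab ▸ norm_nonneg _
  -- `d < 1`
  have hd1 : d < 1 := by
    obtain ⟨s, hs⟩ := hg
    obtain ⟨a, b, h1⟩ := hmin 1 Z.one_mem (ρ g 0 0) (hρ1 g 0 0)
    refine lt_of_le_of_lt h1 ?_
    rw [inv_one, one_mul]
    have hSg : ∀ a b, red (ρ g a b) = (s • (1 : Matrix (Fin 2) (Fin 2) κ)) a b := by
      intro a b
      rw [← hs, hS]
      rfl
    fin_cases a <;> fin_cases b
    · simp
    · have h2 := hSg 0 1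
      simp only [Matrix.smul_apply, Matrix.one_apply_ne (show (0 : Fin 2) ≠ 1 by decide),
        smul_zero] at h2
      have h3 := (hred.zero_iff _ (hρ1 g 0 1)).mp h2
      simpa using h3
    · have h2 := hSg 1 0
      simp only [Matrix.smul_apply, Matrix.one_apply_ne (show (1 : Fin 2) ≠ 0 by decide),
        smul_zero] at h2
      have h3 := (hred.zero_iff _ (hρ1 g 1 0)).mp h2
      simpa using h3
    · have h2 := hSg 0 0
      have h3 := hSg 1 1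
      simp only [Matrix.smul_apply, Matrix.one_apply_eq] at h2 h3
      have h4 : ‖ρ g 1 1 - ρ g 0 0‖ ≤ 1 := LFT_sub (hρ1 g 1 1) (hρ1 g 0 0)
      have h5 := hred.add (ρ g 1 1 - ρ g 0 0) (ρ g 0 0) h4 (hρ1 g 0 0)
      rw [sub_add_cancel, h3, h2] at h5
      have h6 : red (ρ g 1 1 - ρ g 0 0) = 0 := by
        have h7 : red (ρ g 1 1 - ρ g 0 0) + s • (1 : κ) = 0 + s • (1 : κ) := by
          rw [zero_add]
          exact h5.symm
        exact add_right_cancel h7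
      have h8 := (hred.zero_iff _ h4).mp h6
      simpa using h8
  rcases hd00.eq_or_lt with hd0 | hd0
  · -- `d = 0`
    refine ⟨z, hz, c, ?_⟩
    have h1 : ρ (z⁻¹ * g) = c • 1 := by
      ext a b
      have h2 := hd a b
      rw [← hd0] at h2
      have h3 := norm_le_zero_iff.mp h2
      rw [Matrix.sub_apply] at h3
      exact sub_eq_zero.mp h3
    have h2 : g = z * (z⁻¹ * g) := by rw [mul_inv_cancel_left]
    rw [h2, map_mul, h1, Matrix.mul_smul, Matrix.mul_one]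
  exfalso
  -- `‖c‖ = 1`
  have hc : ‖c‖ = 1 := by
    refine le_antisymm hc1 (not_lt.mp fun hlt => ?_)
    have h1 : ∀ a b, ‖ρ (z⁻¹ * g) a b‖ < 1 := by
      intro a b
      have h2 : ρ (z⁻¹ * g) a b = (ρ (z⁻¹ * g) - c • 1) a b + (c • (1 : Matrix (Fin 2) (Fin 2) F)) a b := by
        rw [Matrix.sub_apply, sub_add_cancel]
      rw [h2]
      apply LFT_add' ((hd a b).trans_lt hd1)
      rw [Matrix.smul_apply, smul_eq_mul, norm_mul]
      calc ‖c‖ * ‖(1 : Matrix (Fin 2) (Fin 2) F) a b‖ ≤ ‖c‖ * 1 :=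
            mul_le_mul_of_nonneg_left (LFT_one a b) (norm_nonneg _)
        _ = ‖c‖ := mul_one _
        _ < 1 := hlt
    have h3 := LFT_mul' h1 (hρ1 (z⁻¹ * g)⁻¹) 0 0
    rw [hom_mul_inv'] at h3
    simp at h3
  have hc0 : c ≠ 0 := by
    intro h0
    rw [h0, norm_zero] at hc
    exact zero_ne_one hc
  set Y : Matrix (Fin 2) (Fin 2) F := c⁻¹ • (ρ (z⁻¹ * g) - c • 1) with hYdef
  have hYn : ∀ a b, ‖Y a b‖ = ‖(ρ (z⁻¹ * g) - c • 1) a b‖ := by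
    intro a b
    rw [hYdef, Matrix.smul_apply, smul_eq_mul, norm_mul, norm_inv, hc, inv_one, one_mul]
  have hρh : ρ (z⁻¹ * g) = c • (1 + Y) := by
    rw [hYdef, smul_add, smul_smul, mul_inv_cancel₀ hc0, one_smul, add_sub_cancel]
  have hY : ∀ a b, ‖Y a b‖ ≤ d := fun a b => (hYn a b).le.trans (hd a b)
  set π : F := Y a0 b0 with hπdef
  have hπ : ‖π‖ = d := by rw [hπdef, hYn, hab]
  have hπ0 : π ≠ 0 := by
    intro h0
    rw [h0, norm_zero] at hπ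
    exact hd0.ne hπ
  -- `2` is not zero in `κ`
  have h2κ : (2 : κ) ≠ 0 := by
    intro h0
    have h1 : ((2 : ℕ) : κ) = 0 := by exact_mod_cast h0
    rw [CharP.cast_eq_zero_iff κ p] at h1
    exact hp2 ((Nat.prime_dvd_prime_iff_eq hp.out Nat.prime_two).mp h1)
  -- the leading term of `h`
  set s0 : κ := -(((π⁻¹ • Y).map red).trace / 2) with hs0
  have hLTh : LFT_LT ρ red d π (z⁻¹ * g) ((π⁻¹ • Y).map red + s0 • 1) := by
    refine ⟨?_, c, Y, s0, hc, hρh, hY, rfl⟩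
    rw [Matrix.trace_add, Matrix.trace_smul, Matrix.trace_one, hs0]
    simp only [Fintype.card_fin, smul_eq_mul]
    push_cast
    field_simp
    ring
  obtain ⟨γ, γ', hγ1, hγ2, ⟨z1, hz1, c1, hc1'⟩, ⟨z2, hz2, c2, hc2'⟩⟩ := hPSL
  have hWR := hLSL p hp2 κ
    ((LFT_sub_lt ρ hred hd0 hd1 hπ hρ1 Z).comap (LFT_cj γ γ'))
    ((LFT_sub_lt ρ hred hd0 hd1 hπ hρ1 ⊤).comap (LFT_cj γ γ'))
    (by
      rintro X ⟨x, _, hx⟩
      exact ⟨x, trivial, hx⟩)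
    (by
      rintro X ⟨x, _, hx⟩
      have h1 : (γ * X * γ').trace = 0 := hx.1
      rwa [Matrix.trace_mul_comm, ← Matrix.mul_assoc, hγ2, Matrix.one_mul] at h1)
    (by
      rintro X ⟨x, _, hx⟩
      apply LFT_comm ρ hred hd0 hd1 hπ hρ1 hS Z hZn hγ1 hγ2 _ z1 hz1 c1 hc1' X ⟨x, hx⟩
      ext i j
      fin_cases i <;> fin_cases j <;> simp [mu])
    (by
      rintro X ⟨x, _, hx⟩
      apply LFT_comm ρ hred hd0 hd1 hπ hρ1 hS Z hZn hγ1 hγ2 _ z2 hz2 c2 hc2' X ⟨x, hx⟩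
      ext i j
      fin_cases i <;> fin_cases j <;> simp [mw])
  have hin : γ' * ((π⁻¹ • Y).map red + s0 • 1) * γ ∈
      (LFT_sub_lt ρ hred hd0 hd1 hπ hρ1 ⊤).comap (LFT_cj γ γ') := by
    refine ⟨z⁻¹ * g, trivial, ?_⟩
    have h1 : γ * (γ' * ((π⁻¹ • Y).map red + s0 • 1) * γ) * γ' = (π⁻¹ • Y).map red + s0 • 1 := by
      calc γ * (γ' * ((π⁻¹ • Y).map red + s0 • 1) * γ) * γ' =
          γ * γ' * ((π⁻¹ • Y).map red + s0 • 1) * (γ * γ') := by simp only [Matrix.mul_assoc]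
        _ = _ := by rw [hγ1, Matrix.one_mul, Matrix.mul_one]
    show LFT_LT ρ red d π (z⁻¹ * g) (γ * (γ' * ((π⁻¹ • Y).map red + s0 • 1) * γ) * γ')
    rw [h1]
    exact hLTh
  obtain ⟨z', hz', hLT'⟩ := hWR hin
  have hLT2 : LFT_LT ρ red d π z' ((π⁻¹ • Y).map red + s0 • 1) := by
    have h1 : γ * (γ' * ((π⁻¹ • Y).map red + s0 • 1) * γ) * γ' = (π⁻¹ • Y).map red + s0 • 1 := by
      calc γ * (γ' * ((π⁻¹ • Y).map red + s0 • 1) * γ) * γ' =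
          γ * γ' * ((π⁻¹ • Y).map red + s0 • 1) * (γ * γ') := by simp only [Matrix.mul_assoc]
        _ = _ := by rw [hγ1, Matrix.one_mul, Matrix.mul_one]
    have h2 : LFT_LT ρ red d π z' (γ * (γ' * ((π⁻¹ • Y).map red + s0 • 1) * γ) * γ') := hLT'
    rwa [h1] at h2
  obtain ⟨_, c', Y', s', hc', hρ', hY', hX'⟩ := hLT2
  obtain ⟨Y'', hinv1, hinv2, hY''⟩ := LFT_inv_aux hd1 hρ1 hc' hd0 hρ' hY'
  -- the difference of the entries
  have e1 : ∀ a b, ‖(π⁻¹ • Y) a b‖ ≤ 1 := LFT_pi hd0 hπ (by simpa using hY)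
  have e2 : ∀ a b, ‖(π⁻¹ • Y') a b‖ ≤ 1 := LFT_pi hd0 hπ (by simpa using hY')
  have hsubred : ∀ a b, red ((π⁻¹ • Y) a b - (π⁻¹ • Y') a b) =
      red ((π⁻¹ • Y) a b) - red ((π⁻¹ • Y') a b) := by
    intro a b
    have h1 := hred.add ((π⁻¹ • Y) a b - (π⁻¹ • Y') a b) ((π⁻¹ • Y') a b)
      (LFT_sub (e1 a b) (e2 a b)) (e2 a b)
    rw [sub_add_cancel] at h1
    rw [h1, add_sub_cancel_right]
  have hdiff : ∀ a b, red ((π⁻¹ • Y) a b - (π⁻¹ • Y') a b) =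
      ((s' - s0) • (1 : Matrix (Fin 2) (Fin 2) κ)) a b := by
    intro a b
    have h1 := congrFun (congrFun hX' a) b
    simp only [Matrix.add_apply, Matrix.map_apply, Matrix.smul_apply] at h1
    rw [hsubred, Matrix.smul_apply]
    simp only [Matrix.smul_apply, smul_eq_mul] at h1 ⊢
    linear_combination h1
  have hd2 : ∀ a b, red (π⁻¹ * (Y a b - Y' a b)) =
      (s' - s0) * (1 : Matrix (Fin 2) (Fin 2) κ) a b := by
    intro a b
    have h1 := hdiff a b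
    simp only [Matrix.smul_apply, smul_eq_mul] at h1
    rw [mul_sub]
    exact h1
  set τ : F := (Y - Y') 0 0 with hτ
  have hτd : ‖τ‖ ≤ d := by
    rw [hτ, Matrix.sub_apply]
    exact LFT_sub (hY 0 0) (hY' 0 0)
  have hback : ∀ w : F, ‖w‖ ≤ d → red (π⁻¹ * w) = 0 → ‖w‖ < d := by
    intro w hw hr
    have h1 : ‖π⁻¹ * w‖ ≤ 1 := by
      rw [norm_mul, norm_inv, hπ]
      calc d⁻¹ * ‖w‖ ≤ d⁻¹ * d := mul_le_mul_of_nonneg_left hw (inv_nonneg.mpr hd0.le)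
        _ = 1 := inv_mul_cancel₀ hd0.ne'
    have h2 := (hred.zero_iff _ h1).mp hr
    rw [norm_mul, norm_inv, hπ] at h2
    have h3 : d * (d⁻¹ * ‖w‖) < d * 1 := mul_lt_mul_of_pos_left h2 hd0
    rwa [← mul_assoc, mul_inv_cancel₀ hd0.ne', one_mul, mul_one] at h3
  have hE : ∀ a b, ‖(Y - Y' - τ • 1) a b‖ < d := by
    intro a b
    fin_cases a <;> fin_cases b
    · show ‖(Y - Y' - τ • 1) 0 0‖ < d
      rw [Matrix.sub_apply, Matrix.smul_apply, Matrix.one_apply_eq, hτ, smul_eq_mul, mul_one,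
        sub_self, norm_zero]
      exact hd0
    · show ‖(Y - Y' - τ • 1) 0 1‖ < d
      have h1 := hd2 0 1
      rw [Matrix.one_apply_ne (show (0 : Fin 2) ≠ 1 by decide), mul_zero] at h1
      have h2 : (Y - Y' - τ • 1) 0 1 = Y 0 1 - Y' 0 1 := by simp
      rw [h2]
      exact hback _ (LFT_sub (hY 0 1) (hY' 0 1)) h1
    · show ‖(Y - Y' - τ • 1) 1 0‖ < d
      have h1 := hd2 1 0
      rw [Matrix.one_apply_ne (show (1 : Fin 2) ≠ 0 by decide), mul_zero] at h1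
      have h2 : (Y - Y' - τ • 1) 1 0 = Y 1 0 - Y' 1 0 := by simp
      rw [h2]
      exact hback _ (LFT_sub (hY 1 0) (hY' 1 0)) h1
    · show ‖(Y - Y' - τ • 1) 1 1‖ < d
      have h1 := hd2 1 1
      have h3 := hd2 0 0
      rw [Matrix.one_apply_eq] at h1 h3
      have h2 : (Y - Y' - τ • 1) 1 1 = (Y 1 1 - Y' 1 1) - (Y 0 0 - Y' 0 0) := by simp [hτ]
      rw [h2]
      apply hback _ (LFT_sub (LFT_sub (hY 1 1) (hY' 1 1)) (LFT_sub (hY 0 0) (hY' 0 0)))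
      have e3 : ∀ a b, ‖π⁻¹ * (Y a b - Y' a b)‖ ≤ 1 := by
        intro a b
        have h5 := LFT_sub (e1 a b) (e2 a b)
        simp only [Matrix.smul_apply, smul_eq_mul] at h5
        rwa [mul_sub]
      rw [mul_sub]
      have h7 := hred.add _ _ (LFT_sub (e3 1 1) (e3 0 0)) (e3 0 0)
      rw [sub_add_cancel, h1, h3] at h7
      have h8 : (0 : κ) + (s' - s0) * 1 = red (π⁻¹ * (Y 1 1 - Y' 1 1) - π⁻¹ * (Y 0 0 - Y' 0 0)) + (s' - s0) * 1 := by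
        rw [zero_add]
        exact h7
      exact (add_right_cancel h8).symm
  -- the new element
  have hc'0 : c' ≠ 0 := by
    intro h0
    rw [h0, norm_zero] at hc'
    exact zero_ne_one hc'
  obtain ⟨a, b, hlast⟩ := hmin (g * z' * g⁻¹ * z)
    (Z.mul_mem (hZn.conj_mem _ hz' _) hz) (c * c'⁻¹ * (1 + τ)) (by
      rw [norm_mul, norm_mul, hc, norm_inv, hc', inv_one, one_mul, one_mul]
      exact LFT_add (by simp) (hτd.trans hd1.le))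
  have hel : (g * z' * g⁻¹ * z)⁻¹ * g = z⁻¹ * g * z'⁻¹ := by group
  have hmat : ρ ((g * z' * g⁻¹ * z)⁻¹ * g) - (c * c'⁻¹ * (1 + τ)) • 1 =
      (c * c'⁻¹) • (τ • Y'' + (Y - Y' - τ • 1) * (1 + Y'')) := by
    have h1 : (1 + Y) * (1 + Y'') = (1 + Y') * (1 + Y'') + (Y - Y') * (1 + Y'') := by noncomm_ring
    have h2 : (Y - Y' - τ • 1) * (1 + Y'') = (Y - Y') * (1 + Y'') - τ • (1 + Y'') := by
      rw [Matrix.sub_mul _ (τ • 1), Matrix.smul_mul, Matrix.one_mul]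
    have h3 : (1 + Y) * (1 + Y'') - (1 + τ) • (1 : Matrix (Fin 2) (Fin 2) F) =
        τ • Y'' + (Y - Y' - τ • 1) * (1 + Y'') := by
      rw [h1, hinv2, h2, add_smul, one_smul, smul_add]
      abel
    rw [hel, map_mul, hρh, hinv1, Matrix.smul_mul, Matrix.mul_smul, smul_smul, ← h3, smul_sub,
      smul_smul]
  rw [hmat] at hlast
  have hfin : ‖((c * c'⁻¹) • (τ • Y'' + (Y - Y' - τ • 1) * (1 + Y''))) a b‖ < d := by
    rw [Matrix.smul_apply, smul_eq_mul, norm_mul, norm_mul, hc, norm_inv, hc', inv_one, one_mul,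
      one_mul, Matrix.add_apply]
    apply LFT_add'
    · rw [Matrix.smul_apply, smul_eq_mul, norm_mul]
      calc ‖τ‖ * ‖Y'' a b‖ ≤ d * d := mul_le_mul hτd (hY'' a b) (norm_nonneg _) hd0.le
        _ < d := by nlinarith
    · apply LFT_mul' hE
      intro a b
      rw [Matrix.add_apply]
      exact LFT_add (LFT_one a b) ((hY'' a b).trans hd1.le)
  exact absurd hlast (not_le.mpr hfin)

end Pool.Agent.AX
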