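import Pool.Agent.helper44.AX.SpecA

/-!
Row LSL of project AX: subgroups of traceless matrices stable under differences by `mu`, `mw`.
-/

set_option autoImplicit false

namespace Pool.Agent.AX

open Matrix

theorem LSL : LSL_stmt := by
  intro p hp hp2 κ _ _ R W hRW htr hd1 hd2
  have hhalf : ∀ Y : Matrix (Fin 2) (Fin 2) κ, Y + Y ∈ R → Y ∈ R := by
    intro Y hY
    obtain ⟨k, hk⟩ : ∃ k, p = 2 * k + 1 := by
      rcases hp.out.eq_two_or_odd with h | h
      · exact absurd h hp2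
      · exact ⟨p / 2, by omega⟩
    have h1 : (k + 1) • (Y + Y) = Y := by
      have h2 : (p : κ) = 0 := CharP.cast_eq_zero κ p
      rw [hk] at h2
      push_cast at h2
      ext i j
      rw [Matrix.smul_apply, Matrix.add_apply, nsmul_eq_mul]
      push_cast
      linear_combination Y i j * h2
    rw [← h1]
    exact R.nsmul_mem hY (k + 1)
  have d1 : ∀ h b c : κ, !![h, b; c, -h] ∈ W → !![c, -2 * h - c; 0, -c] ∈ R := by
    intro h b c hX
    have h1 := hd1 _ hX
    have e : mu κ * !![h, b; c, -h] * !![1, -1; 0, 1] - !![h, b; c, -h] =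
        !![c, -2 * h - c; 0, -c] := by
      ext i j
      fin_cases i <;> fin_cases j <;> simp [mu, Matrix.mul_apply, Fin.sum_univ_two] <;> ring
    rwa [e] at h1
  have d2 : ∀ h b c : κ, !![h, b; c, -h] ∈ W → !![-b, 0; 2 * h - b, b] ∈ R := by
    intro h b c hX
    have h1 := hd2 _ hX
    have e : mw κ * !![h, b; c, -h] * !![1, 0; -1, 1] - !![h, b; c, -h] =
        !![-b, 0; 2 * h - b, b] := by
      ext i j
      fin_cases i <;> fin_cases j <;> simp [mw, Matrix.mul_apply, Fin.sum_univ_two] <;> ring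
    rwa [e] at h1
  -- halving with sign
  have hneg : ∀ Y Z : Matrix (Fin 2) (Fin 2) κ, Z ∈ R → Z = -(Y + Y) → Y ∈ R := by
    intro Y Z hZ he
    apply hhalf
    have : Y + Y = -Z := by rw [he, neg_neg]
    rw [this]
    exact R.neg_mem hZ
  have s1 : ∀ h b c : κ, !![h, b; c, -h] ∈ W → !![0, c; 0, 0] ∈ R := by
    intro h b c hX
    have h1 := hRW (d1 h b c hX)
    have h2 := d1 c (-2 * h - c) 0 h1
    refine hneg _ _ h2 ?_
    ext i j
    fin_cases i <;> fin_cases j <;> simp <;> ring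
  have s2 : ∀ h b c : κ, !![h, b; c, -h] ∈ W → !![0, 0; b, 0] ∈ R := by
    intro h b c hX
    have h1 := hRW (d2 h b c hX)
    have h1' : !![-b, 0; 2 * h - b, - -b] ∈ W := by rwa [neg_neg]
    have h2 := d2 (-b) 0 (2 * h - b) h1'
    refine hneg _ _ h2 ?_
    ext i j
    fin_cases i <;> fin_cases j <;> simp <;> ring
  have t1 : ∀ h b c : κ, !![h, b; c, -h] ∈ W → !![c, 0; 0, -c] ∈ R := by
    intro h b c hX
    have h1 : !![0, c; 0, -(0 : κ)] ∈ W := by
      rw [neg_zero]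
      exact hRW (s1 h b c hX)
    have h2 := d2 0 c 0 h1
    have h3 := s2 0 c 0 h1
    have e : !![c, 0; 0, -c] = -(!![-c, 0; 2 * 0 - c, c] + !![0, 0; c, 0]) := by
      ext i j
      fin_cases i <;> fin_cases j <;> simp
    rw [e]
    exact R.neg_mem (R.add_mem h2 h3)
  have t2 : ∀ h b c : κ, !![h, b; c, -h] ∈ W → !![0, b; 0, 0] ∈ R ∧ !![b, 0; 0, -b] ∈ R := by
    intro h b c hX
    have h1 : !![0, 0; b, -(0 : κ)] ∈ W := by
      rw [neg_zero]
      exact hRW (s2 h b c hX)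
    have h2 := s1 0 0 b h1
    have h3 := d1 0 0 b h1
    refine ⟨h2, ?_⟩
    have e : !![b, 0; 0, -b] = !![b, -2 * 0 - b; 0, -b] + !![0, b; 0, 0] := by
      ext i j
      fin_cases i <;> fin_cases j <;> simp
    rw [e]
    exact R.add_mem h3 h2
  intro X hX
  have hX' : X = !![X 0 0, X 0 1; X 1 0, -X 0 0] := by
    have h1 := htr X hX
    rw [Matrix.trace_fin_two] at h1
    ext i j
    fin_cases i <;> fin_cases j <;> simp
    linear_combination h1
  have hX2 : !![X 0 0, X 0 1; X 1 0, -X 0 0] ∈ W := by rwa [← hX']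
  have a1 := t1 _ _ _ hX2
  have a2 := s2 _ _ _ hX2
  have a3 := s1 _ _ _ hX2
  have a4 := t2 _ _ _ hX2
  have a5 := t2 _ _ _ (hRW (d1 _ _ _ hX2))
  -- a5.2 : (-2h-c, 0, 0), a1 : (c,0,0)
  have a6 : !![X 0 0, 0; 0, -X 0 0] ∈ R := by
    refine hneg _ _ (R.add_mem a5.2 a1) ?_
    ext i j
    fin_cases i <;> fin_cases j <;> simp <;> ring
  have a7 : !![0, 0; X 1 0, 0] ∈ R := by
    have h1 : !![0, X 1 0; 0, -(0 : κ)] ∈ W := by
      rw [neg_zero]
      exact hRW a3
    exact s2 _ _ _ h1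
  have e : X = !![X 0 0, 0; 0, -X 0 0] + !![0, X 0 1; 0, 0] + !![0, 0; X 1 0, 0] := by
    conv_lhs => rw [hX']
    ext i j
    fin_cases i <;> fin_cases j <;> simp
  rw [e]
  exact R.add_mem (R.add_mem a6 a4.1) a7

end Pool.Agent.AX
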